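import Pool.Agent.J6H99.NX.Stm

/-!
# First-passage percolation: the contradiction between the growth and the power bound

Weights with an exponential moment. Port of `Pool/Agent/J6H23/NC/End.lean` (helper23).
-/

set_option autoImplicit false

open MeasureTheory ProbabilityTheory Filter Topology
open scoped ENNReal

namespace Pool.Agent.J6H58.NX

open Pool.Agent.J6H99.NX

/-- choice of the number of blocks -/
lemma exists_N {κ θ : ℝ} (hκ : 0 < κ) (hθ : θ < 1) :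
    ∃ N : ℕ, 1 ≤ N ∧ 1 ≤ κ * N ∧ (N : ℝ) ^ θ < κ * N := by
  have h1 : Tendsto (fun n : ℕ => ((n : ℝ)) ^ (-(1 - θ))) atTop (𝓝 0) :=
    (tendsto_rpow_neg_atTop (by linarith : 0 < 1 - θ)).comp tendsto_natCast_atTop_atTop
  have h2 : Tendsto (fun n : ℕ => κ * (n : ℝ)) atTop atTop :=
    tendsto_natCast_atTop_atTop.const_mul_atTop hκ
  obtain ⟨N, h3, h4, h5⟩ := ((h1.eventually_lt_const hκ).and
    ((h2.eventually_ge_atTop 1).and (eventually_ge_atTop 1))).exists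
  refine ⟨N, h5, h4, ?_⟩
  have hN : (0 : ℝ) < N := by exact_mod_cast h5
  have e : (N : ℝ) ^ θ = (N : ℝ) ^ (-(1 - θ)) * N := by
    rw [← Real.rpow_add_one hN.ne']
    congr 1
    ring
  rw [e]
  exact mul_lt_mul_of_pos_right h3 hN

/-- MODULE END -/
theorem fin : EndT := by
  intro hCl hSs hGrow hPow hStart hChain hU hReach e q F _ _ ι _ D hV hFar hN
  have hSS : ∀ ε : ℝ, 0 < ε → ε < 1 → SSgB D ε := fun ε h0 h1 =>
    hSs e q F ι D ε h0 h1 (hCl hChain hU hReach e q F ι D hV hFar ε h0 h1)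
  obtain ⟨κ0, hκ, hg⟩ := hGrow e q F ι D hSS
  obtain ⟨θ, C, hθ, hp⟩ := hPow e q F ι D hV hFar
  obtain ⟨N, hN1, hN2, hN3⟩ := exists_N hκ hθ
  obtain ⟨εN, hεN, hg⟩ := hg N hN1
  obtain ⟨ε, hε⟩ : ∃ ε, ε = min εN (1 / 2) := ⟨_, rfl⟩
  have hε0 : 0 < ε := by rw [hε]; exact lt_min hεN (by norm_num)
  have hε1 : ε ≤ 1 / 2 := by rw [hε]; exact min_le_right _ _
  obtain ⟨Cs, hg⟩ := hg ε hε0 (by rw [hε]; exact min_le_left _ _)
  obtain ⟨l, hl1, hl2⟩ := hStart e q F ι D hV hN ε hε0 (lt_of_le_of_lt hε1 (by norm_num)) (max Cs 1)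
  have hpow : ∀ l : ℕ, 1 ≤ l → (kk D ε l : ℝ) ≤ C * (l : ℝ) ^ θ := by
    intro l hl
    obtain ⟨w, hw1, hw2⟩ := hp l hl
    have h1 : kk D ε l ≤ w := kk_le D ((ENNReal.ofReal_le_ofReal hε1).trans hw2)
    have h2 : (kk D ε l : ℝ) ≤ w := by exact_mod_cast h1
    exact h2.trans hw1
  have hN0 : (0 : ℝ) < N := by exact_mod_cast hN1
  have hl0 : (0 : ℝ) < l := by exact_mod_cast hl1
  have hind : ∀ j : ℕ, (κ0 * N) ^ j ≤ (kk D ε (N ^ j * l) : ℝ) ∧ max Cs 1 ≤ kk D ε (N ^ j * l) := by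
    intro j
    induction j with
    | zero =>
      rw [pow_zero, pow_zero, one_mul]
      refine ⟨?_, hl2⟩
      exact_mod_cast (le_max_right Cs 1).trans hl2
    | succ j ih =>
      have h1 := hg (N ^ j * l) ((le_max_left _ _).trans ih.2)
      have e1 : N * (N ^ j * l) = N ^ (j + 1) * l := by ring
      rw [e1] at h1
      have h0 : (0 : ℝ) ≤ κ0 * N := by positivity
      refine ⟨?_, ?_⟩
      · rw [pow_succ, mul_comm]
        exact (mul_le_mul_of_nonneg_left ih.1 h0).trans h1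
      · have h2 : (kk D ε (N ^ j * l) : ℝ) ≤ kk D ε (N ^ (j + 1) * l) := by
          refine le_trans ?_ h1
          exact le_mul_of_one_le_left (Nat.cast_nonneg _) hN2
        exact ih.2.trans (by exact_mod_cast h2)
  -- the ratio
  have hNθ : (0 : ℝ) < (N : ℝ) ^ θ := Real.rpow_pos_of_pos hN0 θ
  have hr : 1 < κ0 * N / (N : ℝ) ^ θ := by
    rw [lt_div_iff₀ hNθ, one_mul]
    exact hN3
  obtain ⟨j, hj⟩ := pow_unbounded_of_one_lt (C * (l : ℝ) ^ θ) hr
  have h1 := (hind j).1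
  have h2 := hpow (N ^ j * l) (Nat.one_le_iff_ne_zero.2
    (Nat.mul_ne_zero (pow_ne_zero _ (by omega)) (by omega)))
  have e2 : ((N ^ j * l : ℕ) : ℝ) ^ θ = ((N : ℝ) ^ θ) ^ j * (l : ℝ) ^ θ := by
    push_cast
    rw [Real.mul_rpow (by positivity) hl0.le]
    congr 1
    rw [← Real.rpow_natCast, ← Real.rpow_natCast, ← Real.rpow_mul hN0.le, ← Real.rpow_mul hN0.le,
      mul_comm]
  rw [e2] at h2
  rw [div_pow, lt_div_iff₀ (by positivity)] at hj
  have h3 : C * (((N : ℝ) ^ θ) ^ j * (l : ℝ) ^ θ) = C * (l : ℝ) ^ θ * ((N : ℝ) ^ θ) ^ j := by ring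
  rw [h3] at h2
  linarith

end Pool.Agent.J6H58.NX
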